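import Pool.Agent.TH902.FI.Base
import Pool.Agent.TH959.FI_FSPLIT

/-!
# FI-FCLOSE: spreading the label over the clusters by iterated splitting
-/

set_option autoImplicit false

open MeasureTheory Set Filter Pool.Agent.TH722.FI
open scoped Topology ENNReal

namespace Pool.Agent.TH902.FI
open Pool.Agent.TH959.FIS

section Path

variable {V : Type*}

/-- `b` is reached from `a` in `n` steps -/
def nst (R : V → V → Prop) : ℕ → V → V → Prop
  | 0, a, b => a = b
  | n + 1, a, b => ∃ c, nst R n a c ∧ R c b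

theorem exists_nst {R : V → V → Prop} {a b : V} (h : Relation.ReflTransGen R a b) :
    ∃ n, nst R n a b := by
  induction h with
  | refl => exact ⟨0, rfl⟩
  | tail _ h ih =>
    obtain ⟨n, hn⟩ := ih
    exact ⟨n + 1, _, hn, h⟩

theorem nst_mem {R : V → V → Prop} {K : Finset V} {a : V} (ha : a ∈ K)
    (hR : ∀ x y, R x y → y ∈ K) : ∀ (n : ℕ) (b : V), nst R n a b → b ∈ K
  | 0, b, h => by
    have : a = b := h
    rw [← this]; exact ha
  | n + 1, b, h => by
    obtain ⟨c, -, hc⟩ := h
    exact hR _ _ hc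

theorem short_nst {R : V → V → Prop} {K : Finset V} {a : V} (ha : a ∈ K)
    (hR : ∀ x y, R x y → y ∈ K) {b : V} (h : Relation.ReflTransGen R a b) :
    ∃ n, n < K.card ∧ nst R n a b := by
  classical
  have key : ∀ (n : ℕ) (b : V), nst R n a b → (∀ k < n, ¬ nst R k a b) →
      n + 1 ≤ (K.filter fun v => ∃ k ≤ n, nst R k a v).card := by
    intro n
    induction n with
    | zero =>
      intro b hb _
      refine Finset.card_pos.mpr ⟨a, ?_⟩
      rw [Finset.mem_filter]
      exact ⟨ha, 0, le_rfl, rfl⟩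
    | succ n ih =>
      intro b hb hmin
      obtain ⟨c, hc, hcb⟩ := hb
      have hcmin : ∀ k < n, ¬ nst R k a c := by
        intro k hk hkc
        exact hmin (k + 1) (by omega) ⟨c, hkc, hcb⟩
      have h1 := ih c hc hcmin
      have hbK : b ∈ K := hR _ _ hcb
      have hbn : b ∉ K.filter fun v => ∃ k ≤ n, nst R k a v := by
        intro hb'
        obtain ⟨-, k, hk, hkb⟩ := Finset.mem_filter.mp hb'
        exact hmin k (by omega) hkb
      have hsub : insert b (K.filter fun v => ∃ k ≤ n, nst R k a v) ⊆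
          K.filter fun v => ∃ k ≤ n + 1, nst R k a v := by
        intro v hv
        rcases Finset.mem_insert.mp hv with rfl | hv
        · exact Finset.mem_filter.mpr ⟨hbK, n + 1, le_rfl, c, hc, hcb⟩
        · obtain ⟨hvK, k, hk, hkv⟩ := Finset.mem_filter.mp hv
          exact Finset.mem_filter.mpr ⟨hvK, k, by omega, hkv⟩
      have := Finset.card_le_card hsub
      rw [Finset.card_insert_of_notMem hbn] at this
      omega
  have hex := exists_nst h
  refine ⟨Nat.find hex, ?_, Nat.find_spec hex⟩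
  have := key (Nat.find hex) b (Nat.find_spec hex) (fun k hk => Nat.find_min hex hk)
  have h2 := Finset.card_filter_le K fun v => ∃ k ≤ Nat.find hex, nst R k a v
  omega

end Path

section Close

variable {G X : Type*} [Group G] [MulAction G X] [MeasurableSpace X] {μ : Measure X}
  [IsProbabilityMeasure μ] {α β γ : Type*}

/-- same cluster pattern -/
def EqP (K : X → Finset G) (l : X → α) (x y : X) : Prop :=
  K x = K y ∧ ∀ g ∈ K x, l (g • x) = l (g • y)

omit [MeasurableSpace X] in
theorem EqP.smul {K : X → Finset G} (hinv : ∀ x, ∀ g ∈ K x, ∀ k, k ∈ K (g • x) ↔ k * g ∈ K x)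
    {l : X → α} {x y : X} (h : EqP K l x y) {g : G} (hg : g ∈ K x) :
    EqP K l (g • x) (g • y) := by
  have hg' : g ∈ K y := h.1 ▸ hg
  refine ⟨?_, ?_⟩
  · ext k
    rw [hinv x g hg, hinv y g hg', h.1]
  · intro k hk
    rw [← mul_smul, ← mul_smul]
    exact h.2 _ ((hinv x g hg k).mp hk)

/-- one splitting step for one group element -/
theorem cstep_one (hact : ∀ g : G, MeasurePreserving (fun x : X => g • x) μ μ)
    (htf : ∀ g : G, g ≠ 1 → g⁻¹ ≠ g)
    (A B : G → Set X) (K : X → Finset G) (S : Finset G) (hA : GF A S)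
    (hK : ClusterPair A B K S) {l : X → α} (hAl : Adapted A l)
    (hKl : ∀ x y, l x = l y → K x = K y)
    {p : X → ℕ} (hpP : ∀ x y, EqP K l x y → p x = p y) (hpl : Finer p l)
    {m : X → ℕ} (hm : IsLab μ m) (hmp : Finer m p) (hmP : ∀ x y, EqP K l x y → m x = m y) (g : G) :
    ∃ m' : X → ℕ, IsLab μ m' ∧ Finer m' m ∧ (∀ x y, EqP K l x y → m' x = m' y) ∧
      F μ S A m' ≤ F μ S A m ∧
      ∀ x y, m' x = m' y → x ∈ A g → g ∈ K x → p (g • x) = p (g • y) := by
  classical
  by_cases hg : g = 1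
  · refine ⟨m, hm, fun x y h => h, hmP, le_rfl, fun x y _ hx => ?_⟩
    rw [hg, hA.one] at hx
    exact absurd hx (notMem_empty _)
  · have hmeas : MeasurableSet {x | g ∈ K x} := by
      have : {x | g ∈ K x} = ⋃ P ∈ S.powerset.filter (fun P => g ∈ P), {x | K x = P} := by
        ext x
        simp only [mem_ofPred_eq, mem_iUnion, Finset.mem_filter, Finset.mem_powerset, exists_prop]
        constructor
        · intro h
          exact ⟨K x, ⟨hK.bdd x, h⟩, rfl⟩
        · rintro ⟨P, ⟨-, h⟩, h'⟩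
          rw [h']; exact h
      rw [this]
      exact Finset.measurableSet_biUnion _ fun P _ => hK.meas P
    let E : Set X := A g ∩ {x | g ∈ K x}
    have hE : MeasurableSet E := (hA.meas g).inter hmeas
    have hEl : ∀ x y, l x = l y → (x ∈ E ↔ y ∈ E) := by
      intro x y h
      have h1 := hAl g x y h
      have h2 := hKl x y h
      simp only [E, mem_inter_iff, mem_ofPred_eq, h1, h2]
    have hEm : ∀ x y, m x = m y → (x ∈ E ↔ y ∈ E) := fun x y h =>
      hEl x y (hpl x y (hmp x y h))
    obtain ⟨h1, h2⟩ := F_split hact A S hA hm g (htf g hg) E hE inter_subset_left hEm hmp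
    obtain ⟨m', hm', ha, hb⟩ := lab_encode h1
    refine ⟨m', hm', fun x y h => (Prod.ext_iff.mp (hb x y h)).1, ?_, ?_, fun x y h hx hgx => ?_⟩
    · intro x y h
      refine ha x y ?_
      refine Prod.ext (hmP x y h) ?_
      have hl : l x = l y := by
        have := h.2 1 (hK.one_mem x)
        simpa using this
      have hxy := hEl x y hl
      simp only [onSet]
      by_cases hx : x ∈ E
      · rw [if_pos hx, if_pos (hxy.mp hx)]
        congr 1
        exact hpP _ _ (h.smul hK.inv hx.2)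
      · rw [if_neg hx, if_neg (fun hy => hx (hxy.mpr hy))]
    · rw [← F_congr hact A S ha hb]
      exact h2
    · have h3 := hb x y h
      have h4 := (Prod.ext_iff.mp h3).1
      have h5 := (Prod.ext_iff.mp h3).2
      have hxE : x ∈ E := ⟨hx, hgx⟩
      have hy : y ∈ E := (hEm x y h4).mp hxE
      simp only [onSet, if_pos hxE, if_pos hy, Option.some.injEq] at h5
      exact h5

/-- one splitting step for all group elements of `S` -/
theorem cstep_all (hact : ∀ g : G, MeasurePreserving (fun x : X => g • x) μ μ)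
    (htf : ∀ g : G, g ≠ 1 → g⁻¹ ≠ g)
    (A B : G → Set X) (K : X → Finset G) (S : Finset G) (hA : GF A S)
    (hK : ClusterPair A B K S) {l : X → α} (hAl : Adapted A l)
    (hKl : ∀ x y, l x = l y → K x = K y)
    {p : X → ℕ} (hp : IsLab μ p) (hpP : ∀ x y, EqP K l x y → p x = p y) (hpl : Finer p l) :
    ∃ m' : X → ℕ, IsLab μ m' ∧ Finer m' p ∧ (∀ x y, EqP K l x y → m' x = m' y) ∧
      F μ S A m' ≤ F μ S A p ∧
      ∀ g x y, m' x = m' y → x ∈ A g → g ∈ K x → p (g • x) = p (g • y) := by
  classical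
  have key : ∀ S' : Finset G, ∃ m' : X → ℕ, IsLab μ m' ∧ Finer m' p ∧
      (∀ x y, EqP K l x y → m' x = m' y) ∧ F μ S A m' ≤ F μ S A p ∧
      ∀ g ∈ S', ∀ x y, m' x = m' y → x ∈ A g → g ∈ K x → p (g • x) = p (g • y) := by
    intro S'
    induction S' using Finset.induction_on with
    | empty => exact ⟨p, hp, fun x y h => h, hpP, le_rfl, by simp⟩
    | insert g S' hg ih =>
      obtain ⟨m, hm, hmp, hmP, hF, hS⟩ := ih
      obtain ⟨m', hm', hm'm, hm'P, hF', hg'⟩ :=
        cstep_one hact htf A B K S hA hK hAl hKl hpP hpl hm hmp hmP g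
      refine ⟨m', hm', Finer.trans' hm'm hmp, hm'P, hF'.trans hF, fun k hk x y h hx hkx => ?_⟩
      rcases Finset.mem_insert.mp hk with rfl | hk
      · exact hg' x y h hx hkx
      · exact hS k hk x y (hm'm x y h) hx hkx
  obtain ⟨m', h1, h2, h3, h4, h5⟩ := key S
  refine ⟨m', h1, h2, h3, h4, fun g x y h hx hgx => ?_⟩
  by_cases hg : g ∈ S
  · exact h5 g hg x y h hx hgx
  · rw [hA.supp g hg] at hx
    exact absurd hx (notMem_empty _)

theorem F_close (hact : ∀ g : G, MeasurePreserving (fun x : X => g • x) μ μ)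
    (htf : ∀ g : G, g ≠ 1 → g⁻¹ ≠ g)
    (A B : G → Set X) (K : X → Finset G) (S : Finset G) (hA : GF A S)
    (hK : ClusterPair A B K S) {l : X → α} (hl : IsLab μ l) (hAl : Adapted A l)
    (hKl : ∀ x y, l x = l y → K x = K y) :
    ∃ l' : X → ℕ, IsLab μ l' ∧ Finer l' l ∧
      (∀ x y, l' x = l' y → ∀ g ∈ K x, l' (g • x) = l' (g • y)) ∧
      F μ S A l' ≤ F μ S A l := by
  classical
  let Q := {p : X → ℕ // IsLab μ p ∧ (∀ x y, EqP K l x y → p x = p y) ∧ Finer p l ∧
    F μ S A p ≤ F μ S A l}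
  obtain ⟨p0, hp0, h01, h02⟩ := lab_encode hl
  have hl1 : ∀ x y, EqP K l x y → l x = l y := by
    intro x y h
    have := h.2 1 (hK.one_mem x)
    simpa using this
  have q0 : Q := ⟨p0, hp0, fun x y h => h01 x y (hl1 x y h), h02, (F_congr hact A S h02 h01).le⟩
  have hnext : ∀ q : Q, ∃ q' : Q, Finer q'.1 q.1 ∧
      ∀ g x y, q'.1 x = q'.1 y → x ∈ A g → g ∈ K x → q.1 (g • x) = q.1 (g • y) := by
    rintro ⟨p, hp, hpP, hpl, hF⟩
    obtain ⟨m', h1, h2, h3, h4, h5⟩ := cstep_all hact htf A B K S hA hK hAl hKl hp hpP hpl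
    exact ⟨⟨m', h1, h3, Finer.trans' h2 hpl, h4.trans hF⟩, h2, h5⟩
  choose nx hnx1 hnx2 using hnext
  let q : ℕ → Q := fun n => Nat.rec q0 (fun _ r => nx r) n
  let p : ℕ → X → ℕ := fun n => (q n).1
  have hp : ∀ n, IsLab μ (p n) := fun n => (q n).2.1
  have hpP : ∀ n x y, EqP K l x y → p n x = p n y := fun n => (q n).2.2.1
  have hpl : ∀ n, Finer (p n) l := fun n => (q n).2.2.2.1
  have hpF : ∀ n, F μ S A (p n) ≤ F μ S A l := fun n => (q n).2.2.2.2
  have hmono1 : ∀ n, Finer (p (n + 1)) (p n) := fun n => hnx1 (q n)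
  have hstep : ∀ n g x y, p (n + 1) x = p (n + 1) y → x ∈ A g → g ∈ K x →
      p n (g • x) = p n (g • y) := fun n => hnx2 (q n)
  have hmono : ∀ m n, n ≤ m → Finer (p m) (p n) := by
    intro m n h
    induction h with
    | refl => exact fun x y h => h
    | step _ ih => exact Finer.trans' (hmono1 _) ih
  -- determination along paths
  have hdet : ∀ (k j : ℕ) (x y : X) (g : G), p (k + j) x = p (k + j) y →
      nst (fun a b => b ∈ K x ∧ a • x ∈ A (b * a⁻¹)) k 1 g → p j (g • x) = p j (g • y) := by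
    intro k
    induction k with
    | zero =>
      intro j x y g h hg
      have hg' : 1 = g := hg
      rw [← hg', one_smul, one_smul]
      simpa using h
    | succ k ih =>
      intro j x y g h hg
      obtain ⟨c, hc, hgK, hcA⟩ := hg
      have h1 : p (k + (j + 1)) x = p (k + (j + 1)) y := by
        have : k + (j + 1) = k + 1 + j := by omega
        rw [this]; exact h
      have h2 := ih (j + 1) x y c h1 hc
      have hcK : c ∈ K x := nst_mem (hK.one_mem x) (fun _ _ h => h.1) k c hc
      have h3 : g * c⁻¹ ∈ K (c • x) := by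
        rw [hK.inv x c hcK]
        simpa using hgK
      have h4 := hstep j (g * c⁻¹) (c • x) (c • y) h2 hcA h3
      rw [smul_smul, smul_smul] at h4
      simpa using h4
  have hfin : ∀ x y, p S.card x = p S.card y → EqP K l x y := by
    intro x y h
    refine ⟨hKl x y (hpl _ x y h), fun g hg => ?_⟩
    obtain ⟨n, hn, hn'⟩ := short_nst (hK.one_mem x)
      (R := fun a b => b ∈ K x ∧ a • x ∈ A (b * a⁻¹)) (fun _ _ h => h.1) (hK.conn x g hg)
    have hn2 : n ≤ S.card := hn.le.trans (Finset.card_le_card (hK.bdd x))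
    have h1 : p (n + 0) x = p (n + 0) y := hmono _ _ (by simpa using hn2) x y h
    exact hpl 0 _ _ (hdet n 0 x y g h1 hn')
  refine ⟨p S.card, hp _, hpl _, fun x y h g hg => ?_, hpF _⟩
  exact hpP _ _ _ ((hfin x y h).smul hK.inv hg)

end Close

end Pool.Agent.TH902.FI
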