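import Pool.Agent.TH480.FI.FI_LAB
import Pool.Agent.TH480.FI.FI_JMONO
import Pool.Agent.TH480.FI.FI_JPOS
import Pool.Agent.TH989.FI_JSPLIT

/-!
# FI-HYBBD: `F` of the hybrid family is bounded by Bowen's functional of `T` plus small errors
-/

set_option autoImplicit false

open MeasureTheory Set Filter Pool.Agent.TH722.FI
open scoped Topology ENNReal

namespace Pool.Agent.TH902.FI
open Pool.Agent.TH480.FI (lab_comp lab_pair J_mono J_nonneg J_loss J_univ J_symm J_map)
open Pool.Agent.TH989.FI (J_split)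

section Basic
variable {X : Type*} [MeasurableSpace X] {μ : Measure X} {α β κ : Type*}

theorem meas_of_sat {w : X → α} (hw : IsLab μ w) {A : Set X}
    (hA : ∀ x y, w x = w y → (x ∈ A ↔ y ∈ A)) : MeasurableSet A := by
  have : A = ⋃ c ∈ w '' A, {x | w x = c} := by
    ext x
    simp only [mem_iUnion, mem_ofPred_eq, exists_prop, exists_eq_right', mem_image]
    constructor
    · intro hx
      exact ⟨x, hx, rfl⟩
    · rintro ⟨y, hy, h⟩
      exact (hA y x h).mp hy
  rw [this]
  refine MeasurableSet.biUnion (hw.cnt.mono (image_subset_range _ _)) fun c _ => hw.meas c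

variable [IsProbabilityMeasure μ]

theorem J_parts {a : X → α} {b : X → β} (ha : IsLab μ a) (hb : IsLab μ b) (D : Set X)
    (I : Finset κ) (P : κ → Set X) (hP : ∀ k ∈ I, MeasurableSet (P k))
    (hdis : ∀ k ∈ I, ∀ k' ∈ I, k ≠ k' → ∀ x, x ∈ P k → x ∉ P k')
    (hun : ∀ x, x ∈ D ↔ ∃ k ∈ I, x ∈ P k)
    (hdet : ∀ k ∈ I, ∀ x y, a x = a y → (x ∈ P k ↔ y ∈ P k)) :
    J μ D a b = ∑ k ∈ I, J μ (P k) a b := by
  classical
  let i : X → Option κ := fun x => if h : ∃ k ∈ I, x ∈ P k then some h.choose else none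
  have hi1 : ∀ x, ∀ k ∈ I, x ∈ P k → i x = some k := by
    intro x k hk hx
    have h : ∃ k ∈ I, x ∈ P k := ⟨k, hk, hx⟩
    have h' : h.choose = k := by
      by_contra hne
      exact hdis _ h.choose_spec.1 k hk hne x h.choose_spec.2 hx
    simp only [i, dif_pos h, h']
  have hi2 : ∀ x k, i x = some k → k ∈ I ∧ x ∈ P k := by
    intro x k h
    by_cases h1 : ∃ k ∈ I, x ∈ P k
    · simp only [i, dif_pos h1, Option.some.injEq] at h
      rw [← h]
      exact h1.choose_spec
    · simp only [i, dif_neg h1] at h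
      exact absurd h (by simp)
  have hset : ∀ k ∈ I, {x | i x = some k} = P k := by
    intro k hk
    ext x
    exact ⟨fun h => (hi2 x k h).2, fun h => hi1 x k hk h⟩
  have hDm : MeasurableSet D := by
    have : D = ⋃ k ∈ I, P k := by
      ext x
      simp only [hun, mem_iUnion, exists_prop]
    rw [this]
    exact Finset.measurableSet_biUnion _ hP
  have him : ∀ k, MeasurableSet {x | i x = k} := by
    intro k
    cases k with
    | none =>
      have : {x | i x = none} = Dᶜ := by
        ext x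
        simp only [mem_ofPred_eq, mem_compl_iff, hun]
        constructor
        · rintro h ⟨k, hk, hx⟩
          rw [hi1 x k hk hx] at h
          exact absurd h (by simp)
        · intro h
          simp only [i, dif_neg h]
      rw [this]
      exact hDm.compl
    | some k =>
      by_cases hk : k ∈ I
      · rw [hset k hk]
        exact hP k hk
      · have : {x | i x = some k} = ∅ := by
          ext x
          simp only [mem_ofPred_eq, mem_empty_iff_false, iff_false]
          exact fun h => hk (hi2 x k h).1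
        rw [this]
        exact MeasurableSet.empty
  have h := J_split D hDm ha hb i (I.image some) ?_ him ?_
  · rw [h, Finset.sum_image (by intro x _ y _ h; exact Option.some.inj h)]
    refine Finset.sum_congr rfl fun k hk => ?_
    congr 1
    rw [hset k hk]
    ext x
    constructor
    · exact fun h => h.2
    · exact fun h => ⟨(hun x).mpr ⟨k, hk, h⟩, h⟩
  · intro x hx
    obtain ⟨k, hk, hxk⟩ := (hun x).mp hx
    rw [hi1 x k hk hxk]
    exact Finset.mem_image_of_mem _ hk
  · intro x hx y hy hab _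
    obtain ⟨k, hk, hxk⟩ := (hun x).mp hx
    rw [hi1 x k hk hxk, hi1 y k hk ((hdet k hk x y hab).mp hxk)]

theorem J_shift {a : X → α} {w : X → β} (hw : IsLab μ w) {D : Set X} (hD : MeasurableSet D)
    {u v : X → X} (hu : MeasurePreserving u μ μ) (hv : MeasurePreserving v μ μ)
    (huv : ∀ x ∈ D, u x = v x) :
    J μ D a (fun x => w (u x)) = J μ D a (fun x => w (v x)) := by
  unfold J
  refine setIntegral_congr_fun hD fun x hx => ?_
  have hm : ∀ {t : X → X}, MeasurePreserving t μ μ → mass μ (fun x => w (t x)) x =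
      μ.real {y | w y = w (t x)} := by
    intro t ht
    unfold mass
    have : {y | w (t y) = w (t x)} = t ⁻¹' {y | w y = w (t x)} := rfl
    rw [this]
    exact ht.measureReal_preimage (hw.meas _).nullMeasurableSet
  simp only [jfun]
  rw [hm hu, hm hv, huv x hx]
  congr 2
  unfold jmass
  congr 1
  ext y
  simp only [mem_ofPred_eq]
  constructor
  · rintro ⟨h1, h2, h3⟩
    exact ⟨h1, h2, by rw [← huv y h1, ← huv x hx]; exact h3⟩
  · rintro ⟨h1, h2, h3⟩
    exact ⟨h1, h2, by rw [huv y h1, huv x hx]; exact h3⟩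

end Basic

section Hyb

variable {r : ℕ} {X : Type*} [MeasurableSpace X] {μ : Measure X}
  [IsProbabilityMeasure μ] {α β γ : Type*}

theorem of_mul_of_ne_one {r : ℕ} (i j : Fin r) : FreeGroup.of i * FreeGroup.of j ≠ 1 := by
  intro h
  have := congrArg (FreeGroup.lift (fun _ : Fin r => Multiplicative.ofAdd (1 : ℤ))) h
  simp only [map_mul, FreeGroup.lift_apply_of, map_one] at this
  have h2 : (1 : ℤ) + 1 = 0 := by
    have := congrArg Multiplicative.toAdd this
    simpa using this
  norm_num at h2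

/-- the pieces of `D g` -/
def piece [MulAction (FreeGroup (Fin r)) X] (T : FreeGroup (Fin r) → X → X)
    (E : Fin r → Set X) (Bk : FreeGroup (Fin r) → Set X) (g : FreeGroup (Fin r)) :
    Option (Fin r ⊕ Fin r) → Set X
  | none => Bk g
  | some (Sum.inl i) => {x | x ∈ E i ∧ T (FreeGroup.of i) x = g • x}
  | some (Sum.inr i) => {x | T (FreeGroup.of i)⁻¹ x ∈ E i ∧ T (FreeGroup.of i)⁻¹ x = g • x}

theorem hybrid_bound [MulAction (FreeGroup (Fin r)) X] (T : FreeGroup (Fin r) → X → X)
    (hC : Common μ T) (E : Fin r → Set X) (hE : ∀ i, MeasurableSet (E i))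
    (D Bk : FreeGroup (Fin r) → Set X) (S : Finset (FreeGroup (Fin r))) (hD : GF D S)
    (hBm : ∀ g, MeasurableSet (Bk g))
    (hBs : ∀ (g : FreeGroup (Fin r)) (x : X), x ∈ Bk g ↔ g • x ∈ Bk g⁻¹)
    (hdec : ∀ (g : FreeGroup (Fin r)) (x : X), x ∈ D g ↔ (x ∈ Bk g ∨ ∃ i, (x ∈ E i ∧ T (FreeGroup.of i) x = g • x) ∨
      (T (FreeGroup.of i)⁻¹ x ∈ E i ∧ T (FreeGroup.of i)⁻¹ x = g • x)))
    (hdisj : ∀ (g : FreeGroup (Fin r)) (x : X), x ∈ Bk g → ¬ ∃ i, (x ∈ E i ∧ T (FreeGroup.of i) x = g • x) ∨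
      (T (FreeGroup.of i)⁻¹ x ∈ E i ∧ T (FreeGroup.of i)⁻¹ x = g • x))
    {χ : X → α} (hχ : IsLab μ χ) {w : X → β} (hw : IsLab μ w) (hwχ : Finer w χ)
    (hw1 : ∀ (g : FreeGroup (Fin r)) (x y : X), w x = w y → (x ∈ Bk g ↔ y ∈ Bk g))
    (hw2 : ∀ (i : Fin r) (g : FreeGroup (Fin r)) (x y : X), w x = w y → ((x ∈ E i ∧ T (FreeGroup.of i) x = g • x) ↔
      (y ∈ E i ∧ T (FreeGroup.of i) y = g • y)))
    (hw3 : ∀ (i : Fin r) (g : FreeGroup (Fin r)) (x y : X), w x = w y →
      ((T (FreeGroup.of i)⁻¹ x ∈ E i ∧ T (FreeGroup.of i)⁻¹ x = g • x) ↔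
      (T (FreeGroup.of i)⁻¹ y ∈ E i ∧ T (FreeGroup.of i)⁻¹ y = g • y))) :
    F μ S D w ≤ BF μ T χ + (ent μ w - ent μ χ)
      + ∑ i, (μ.real (E i)ᶜ + ∫ x in (E i)ᶜ, info μ χ x ∂μ) := by
  classical
  have hTT : ∀ g x, T g⁻¹ (T g x) = x := fun g x => by
    rw [← hC.actT.mul, inv_mul_cancel, hC.actT.one]
  have hTT' : ∀ g x, T g (T g⁻¹ x) = x := fun g x => by
    rw [← hC.actT.mul, mul_inv_cancel, hC.actT.one]
  have hfree : ∀ g h x, T g x = T h x → g = h := by
    intro g h x e
    have : T (h⁻¹ * g) x = x := by rw [hC.actT.mul, e, hTT]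
    exact (inv_mul_eq_one.mp (hC.actT.free _ _ this)).symm
  have hU : ∀ (g h : FreeGroup (Fin r)) (x : X), g • x = h • x → g = h := by
    intro g h x e
    have : (h⁻¹ * g) • x = x := by rw [mul_smul, e, inv_smul_smul]
    exact (inv_mul_eq_one.mp (hC.freeU _ _ this)).symm
  -- pieces
  have hPdet : ∀ g k x y, w x = w y → (x ∈ piece T E Bk g k ↔ y ∈ piece T E Bk g k) := by
    intro g k x y h
    rcases k with _ | (i | i)
    · exact hw1 g x y h
    · exact hw2 i g x y h
    · exact hw3 i g x y h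
  have hPm : ∀ g k, MeasurableSet (piece T E Bk g k) := fun g k => meas_of_sat hw (hPdet g k)
  have hlabU : ∀ g : FreeGroup (Fin r), IsLab μ (fun x => w (g • x)) := fun g =>
    (lab_comp (hC.mpU g) hw).1
  have hlabT : ∀ g : FreeGroup (Fin r), IsLab μ (fun x => w (T g x)) := fun g =>
    (lab_comp (hC.actT.mp g) hw).1
  have hsum1 : ∀ g, J μ (D g) w (fun x => w (g • x)) =
      ∑ k, J μ (piece T E Bk g k) w (fun x => w (g • x)) := by
    intro g
    refine J_parts hw (hlabU g) (D g) Finset.univ (piece T E Bk g) (fun k _ => hPm g k) ?_ ?_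
      (fun k _ => hPdet g k)
    · intro k _ k' _ hne x hx hx'
      rcases k with _ | (i | i) <;> rcases k' with _ | (j | j)
      · exact hne rfl
      · exact hdisj g x hx ⟨j, Or.inl hx'⟩
      · exact hdisj g x hx ⟨j, Or.inr hx'⟩
      · exact hdisj g x hx' ⟨i, Or.inl hx⟩
      · have := hfree _ _ _ (hx.2.trans hx'.2.symm)
        exact hne (by rw [FreeGroup.of_injective this])
      · have := hfree _ _ _ (hx.2.trans hx'.2.symm)
        exact of_mul_of_ne_one j i (by rw [this, mul_inv_cancel])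
      · exact hdisj g x hx' ⟨i, Or.inr hx⟩
      · have := hfree _ _ _ (hx.2.trans hx'.2.symm)
        exact of_mul_of_ne_one i j (by rw [← this, mul_inv_cancel])
      · have := hfree _ _ _ (hx.2.trans hx'.2.symm)
        exact hne (by rw [FreeGroup.of_injective (inv_injective this)])
    · intro x
      rw [hdec]
      constructor
      · rintro (h | ⟨i, h | h⟩)
        · exact ⟨none, Finset.mem_univ _, h⟩
        · exact ⟨some (Sum.inl i), Finset.mem_univ _, h⟩
        · exact ⟨some (Sum.inr i), Finset.mem_univ _, h⟩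
      · rintro ⟨k, -, h⟩
        rcases k with _ | (i | i)
        · exact Or.inl h
        · exact Or.inr ⟨i, Or.inl h⟩
        · exact Or.inr ⟨i, Or.inr h⟩
  have hsum2 : ∀ g, J μ (piece T E Bk g none) w (fun x => w (g • x)) +
      ∑ i, (J μ (piece T E Bk g (some (Sum.inl i))) w (fun x => w (T (FreeGroup.of i) x)) +
        J μ (piece T E Bk g (some (Sum.inr i))) w (fun x => w (T (FreeGroup.of i)⁻¹ x))) =
      J μ (D g) w (fun x => w (g • x)) := by
    intro g
    rw [hsum1, Fintype.sum_option, Fintype.sum_sum_type, Finset.sum_add_distrib]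
    congr 1
    congr 1
    · refine Finset.sum_congr rfl fun i _ => ?_
      exact J_shift hw (hPm g _) (hC.actT.mp _) (hC.mpU g) fun x hx => hx.2
    · refine Finset.sum_congr rfl fun i _ => ?_
      exact J_shift hw (hPm g _) (hC.actT.mp _) (hC.mpU g) fun x hx => hx.2
  have hnn : ∀ g, 0 ≤ J μ (piece T E Bk g none) w (fun x => w (g • x)) := by
    intro g
    refine J_nonneg _ (hPm g none) hw (hlabU g) (hw1 g) fun x y h => ?_
    change x ∈ Bk g ↔ y ∈ Bk g
    rw [hBs g x, hBs g y]
    exact hw1 _ _ _ h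
  have hE1 : ∀ i, ∑ g ∈ S, J μ (piece T E Bk g (some (Sum.inl i))) w
      (fun x => w (T (FreeGroup.of i) x)) = J μ (E i) w (fun x => w (T (FreeGroup.of i) x)) := by
    intro i
    refine (J_parts hw (hlabT _) (E i) S (fun g => piece T E Bk g (some (Sum.inl i)))
      (fun g _ => hPm g _) ?_ ?_ (fun g _ => hPdet g _)).symm
    · intro g _ h _ hne x hx hx'
      exact hne (hU g h x (hx.2.symm.trans hx'.2))
    · intro x
      constructor
      · intro hx
        obtain ⟨g, hg⟩ := hC.orb1 (FreeGroup.of i) x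
        refine ⟨g, ?_, hx, hg⟩
        by_contra hgS
        have : x ∈ D g := (hdec g x).mpr (Or.inr ⟨i, Or.inl ⟨hx, hg⟩⟩)
        rw [hD.supp g hgS] at this
        exact this
      · rintro ⟨g, -, hx⟩
        exact hx.1
  have hE2 : ∀ i, ∑ g ∈ S, J μ (piece T E Bk g (some (Sum.inr i))) w
      (fun x => w (T (FreeGroup.of i)⁻¹ x)) =
      J μ {x | T (FreeGroup.of i)⁻¹ x ∈ E i} w (fun x => w (T (FreeGroup.of i)⁻¹ x)) := by
    intro i
    refine (J_parts hw (hlabT _) _ S (fun g => piece T E Bk g (some (Sum.inr i)))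
      (fun g _ => hPm g _) ?_ ?_ (fun g _ => hPdet g _)).symm
    · intro g _ h _ hne x hx hx'
      exact hne (hU g h x (hx.2.symm.trans hx'.2))
    · intro x
      constructor
      · intro hx
        obtain ⟨g, hg⟩ := hC.orb1 (FreeGroup.of i)⁻¹ x
        refine ⟨g, ?_, hx, hg⟩
        by_contra hgS
        have : x ∈ D g := (hdec g x).mpr (Or.inr ⟨i, Or.inr ⟨hx, hg⟩⟩)
        rw [hD.supp g hgS] at this
        exact this
      · rintro ⟨g, -, hx⟩
        exact hx.1
  have hE3 : ∀ i, J μ {x | T (FreeGroup.of i)⁻¹ x ∈ E i} w (fun x => w (T (FreeGroup.of i)⁻¹ x)) =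
      J μ (E i) w (fun x => w (T (FreeGroup.of i) x)) := by
    intro i
    let e : X ≃ᵐ X :=
      { toFun := T (FreeGroup.of i)
        invFun := T (FreeGroup.of i)⁻¹
        left_inv := hTT _
        right_inv := hTT' _
        measurable_toFun := (hC.actT.mp _).measurable
        measurable_invFun := (hC.actT.mp _).measurable }
    have he : ∀ x, e x = T (FreeGroup.of i) x := fun x => rfl
    have hem : MeasurePreserving e μ μ := hC.actT.mp (FreeGroup.of i)
    have h1 := J_map (μ := μ) e hem {x | T (FreeGroup.of i)⁻¹ x ∈ E i} (a := w)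
      (b := fun x => w (T (FreeGroup.of i)⁻¹ x))
    rw [← h1, J_symm]
    have h2 : (e ⁻¹' {x | T (FreeGroup.of i)⁻¹ x ∈ E i}) = E i := by
      ext x
      simp only [mem_preimage, mem_ofPred_eq, he, hTT]
    rw [h2]
    simp only [he, hTT]
  have hlow : ∀ i, 2 * ent μ χ - ent μ (fun x => (χ x, χ (T (FreeGroup.of i)⁻¹ x))) -
      (μ.real (E i)ᶜ + ∫ x in (E i)ᶜ, info μ χ x ∂μ) ≤
      J μ (E i) w (fun x => w (T (FreeGroup.of i) x)) := by
    intro i
    have hχT := lab_comp (hC.actT.mp (FreeGroup.of i)) hχ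
    have hχT' := lab_comp (hC.actT.mp (FreeGroup.of i)⁻¹) hχ
    have h1 := J_loss (E i) (hE i) hχ hχT.1
    have h2 := J_mono (E i) (hE i) hw (hlabT (FreeGroup.of i)) hwχ
      (b := fun x => χ (T (FreeGroup.of i) x)) (fun x y h => hwχ _ _ h)
    have h3 := J_univ hχ hχT.1
    have h4 : ent μ (fun x => (χ x, χ (T (FreeGroup.of i) x))) =
        ent μ (fun x => (χ x, χ (T (FreeGroup.of i)⁻¹ x))) := by
      have h5 := (lab_comp (hC.actT.mp (FreeGroup.of i)) (lab_pair hχT'.1 hχ).1).2
      simp only [hTT] at h5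
      rw [h5]
      unfold ent info mass
      congr 1
      funext x
      congr 3
      ext y
      simp only [mem_ofPred_eq, Prod.mk.injEq]
      exact and_comm
    rw [h4, hχT.2] at h3
    linarith
  have hmain : 2 * ∑ i, J μ (E i) w (fun x => w (T (FreeGroup.of i) x)) ≤
      ∑ g ∈ S, J μ (D g) w (fun x => w (g • x)) := by
    have h1 : ∑ g ∈ S, J μ (D g) w (fun x => w (g • x)) =
        ∑ g ∈ S, J μ (piece T E Bk g none) w (fun x => w (g • x)) +
        ∑ i, (∑ g ∈ S, J μ (piece T E Bk g (some (Sum.inl i))) w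
          (fun x => w (T (FreeGroup.of i) x)) +
          ∑ g ∈ S, J μ (piece T E Bk g (some (Sum.inr i))) w
          (fun x => w (T (FreeGroup.of i)⁻¹ x))) := by
      rw [← Finset.sum_congr rfl (fun g _ => hsum2 g), Finset.sum_add_distrib]
      congr 1
      rw [Finset.sum_comm]
      refine Finset.sum_congr rfl fun i _ => ?_
      rw [Finset.sum_add_distrib]
    rw [h1]
    have h2 : 0 ≤ ∑ g ∈ S, J μ (piece T E Bk g none) w (fun x => w (g • x)) :=
      Finset.sum_nonneg fun g _ => hnn g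
    have h3 : ∑ i, (∑ g ∈ S, J μ (piece T E Bk g (some (Sum.inl i))) w
          (fun x => w (T (FreeGroup.of i) x)) +
          ∑ g ∈ S, J μ (piece T E Bk g (some (Sum.inr i))) w
          (fun x => w (T (FreeGroup.of i)⁻¹ x))) =
          2 * ∑ i, J μ (E i) w (fun x => w (T (FreeGroup.of i) x)) := by
      rw [Finset.mul_sum]
      refine Finset.sum_congr rfl fun i _ => ?_
      rw [hE1, hE2, hE3]
      ring
    linarith
  have hfin : ∑ i, (2 * ent μ χ - ent μ (fun x => (χ x, χ (T (FreeGroup.of i)⁻¹ x))) -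
      (μ.real (E i)ᶜ + ∫ x in (E i)ᶜ, info μ χ x ∂μ)) ≤
      ∑ i, J μ (E i) w (fun x => w (T (FreeGroup.of i) x)) :=
    Finset.sum_le_sum fun i _ => hlow i
  rw [Finset.sum_sub_distrib, Finset.sum_sub_distrib] at hfin
  simp only [Finset.sum_const, Finset.card_univ, Fintype.card_fin, nsmul_eq_mul] at hfin
  unfold F BF
  nlinarith

end Hyb

end Pool.Agent.TH902.FI
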