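import Pool.Agent.TH902.FI.Base
import Pool.Agent.TH959.FI_FSPLIT
import Pool.Agent.TH480.FI.FI_LAB
import Pool.Agent.TH480.FI.FI_ENTGEN

/-!
# FI-FSTRUCT: adding a structural label costs no `F`
-/

set_option autoImplicit false

open MeasureTheory Set Filter Pool.Agent.TH722.FI
open scoped Topology ENNReal

namespace Pool.Agent.TH902.FI
open Pool.Agent.TH959.FIS (F_congr F_join F_split)
open Pool.Agent.TH480.FI (lab_pair ent_gen)

section Main

variable {G X : Type*} [Group G] [MulAction G X] [MeasurableSpace X] {μ : Measure X}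
  [IsProbabilityMeasure μ] {α β γ : Type*}

/-- one splitting step for one group element -/
theorem step_one (hact : ∀ g : G, MeasurePreserving (fun x : X => g • x) μ μ)
    (htf : ∀ g : G, g ≠ 1 → g⁻¹ ≠ g)
    (D : G → Set X) (S : Finset G) (hD : GF D S) {w : X → α} (hwD : Adapted D w)
    {p : X → ℕ} (hpw : Finer p w) {l : X → ℕ} (hl : IsLab μ l) (hlp : Finer l p) (g : G) :
    ∃ l' : X → ℕ, IsLab μ l' ∧ Finer l' l ∧ F μ S D l' ≤ F μ S D l ∧
      ∀ x y, l' x = l' y → x ∈ D g → p (g • x) = p (g • y) := by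
  by_cases hg : g = 1
  · refine ⟨l, hl, fun x y h => h, le_rfl, fun x y _ hx => ?_⟩
    rw [hg, hD.one] at hx
    exact absurd hx (notMem_empty _)
  · have hEl : ∀ x y, l x = l y → (x ∈ D g ↔ y ∈ D g) := fun x y h =>
      hwD g x y (hpw x y (hlp x y h))
    obtain ⟨h1, h2⟩ := F_split hact D S hD hl g (htf g hg) (D g) (hD.meas g) (subset_refl _) hEl hlp
    obtain ⟨l', hl', ha, hb⟩ := lab_encode h1
    refine ⟨l', hl', fun x y h => (Prod.ext_iff.mp (hb x y h)).1, ?_, fun x y h hx => ?_⟩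
    · rw [← F_congr hact D S ha hb]
      exact h2
    · have h3 := hb x y h
      have h4 := (Prod.ext_iff.mp h3).1
      have h5 := (Prod.ext_iff.mp h3).2
      have hy : y ∈ D g := (hEl x y h4).mp hx
      simp only [onSet, if_pos hx, if_pos hy, Option.some.injEq] at h5
      exact h5

/-- one splitting step for all group elements of `S` -/
theorem step_all (hact : ∀ g : G, MeasurePreserving (fun x : X => g • x) μ μ)
    (htf : ∀ g : G, g ≠ 1 → g⁻¹ ≠ g)
    (D : G → Set X) (S : Finset G) (hD : GF D S) {w : X → α} (hwD : Adapted D w)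
    {p : X → ℕ} (hp : IsLab μ p) (hpw : Finer p w) :
    ∃ l' : X → ℕ, IsLab μ l' ∧ Finer l' p ∧ F μ S D l' ≤ F μ S D p ∧
      ∀ g x y, l' x = l' y → x ∈ D g → p (g • x) = p (g • y) := by
  classical
  have key : ∀ S' : Finset G, ∃ l' : X → ℕ, IsLab μ l' ∧ Finer l' p ∧ F μ S D l' ≤ F μ S D p ∧
      ∀ g ∈ S', ∀ x y, l' x = l' y → x ∈ D g → p (g • x) = p (g • y) := by
    intro S'
    induction S' using Finset.induction_on with
    | empty => exact ⟨p, hp, fun x y h => h, le_rfl, by simp⟩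
    | insert g S' hg ih =>
      obtain ⟨l, hl, hlp, hF, hS⟩ := ih
      obtain ⟨l', hl', hl'l, hF', hg'⟩ := step_one hact htf D S hD hwD hpw hl hlp g
      refine ⟨l', hl', Finer.trans' hl'l hlp, hF'.trans hF, fun k hk x y h hx => ?_⟩
      rcases Finset.mem_insert.mp hk with rfl | hk
      · exact hg' x y h hx
      · exact hS k hk x y (hl'l x y h) hx
  obtain ⟨l', h1, h2, h3, h4⟩ := key S
  refine ⟨l', h1, h2, h3, fun g x y h hx => ?_⟩
  by_cases hg : g ∈ S
  · exact h4 g hg x y h hx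
  · rw [hD.supp g hg] at hx
    exact absurd hx (notMem_empty _)

/-- a path in the graph family, with given steps -/
def IsPath (D : G → Set X) : List G → X → Prop
  | [], _ => True
  | k :: ks, x => x ∈ D k ∧ IsPath D ks (k • x)

/-- the product of the steps -/
def prd : List G → G
  | [] => 1
  | k :: ks => prd ks * k

theorem path_det (D : G → Set X) {w : X → α} (hwD : Adapted D w) (p : ℕ → X → ℕ)
    (hpw : ∀ n, Finer (p n) w)
    (hstep : ∀ n g x y, p (n + 1) x = p (n + 1) y → x ∈ D g → p n (g • x) = p n (g • y))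
    (ks : List G) : ∀ x y, p ks.length x = p ks.length y →
      (IsPath D ks x ↔ IsPath D ks y) ∧ (IsPath D ks x → w (prd ks • x) = w (prd ks • y)) := by
  induction ks with
  | nil =>
    intro x y h
    refine ⟨Iff.rfl, fun _ => ?_⟩
    simp only [prd, one_smul]
    exact hpw _ x y h
  | cons k ks ih =>
    intro x y h
    have hk : x ∈ D k ↔ y ∈ D k := hwD k x y (hpw _ x y h)
    by_cases hx : x ∈ D k
    · have h1 := hstep _ k x y h hx
      obtain ⟨h2, h3⟩ := ih _ _ h1
      refine ⟨?_, ?_⟩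
      · simp only [IsPath]
        rw [← hk, h2]
      · intro hp
        have := h3 hp.2
        simpa only [prd, mul_smul] using this
    · refine ⟨?_, fun hp => absurd hp.1 hx⟩
      simp only [IsPath, hx, hk.not.mp hx, false_and]

theorem exists_path (D : G → Set X) {x z : X}
    (h : Relation.ReflTransGen (fun y z => ∃ k : G, y ∈ D k ∧ z = k • y) x z) :
    ∃ ks : List G, IsPath D ks x ∧ z = prd ks • x := by
  induction h using Relation.ReflTransGen.head_induction_on with
  | refl => exact ⟨[], trivial, by simp [prd]⟩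
  | head h _ ih =>
    obtain ⟨k, hk, rfl⟩ := h
    obtain ⟨ks, h1, h2⟩ := ih
    exact ⟨k :: ks, ⟨hk, h1⟩, by rw [h2, prd, mul_smul]⟩

theorem F_structure [Countable G] (hact : ∀ g : G, MeasurePreserving (fun x : X => g • x) μ μ)
    (hfree : ∀ (g : G) (x : X), g • x = x → g = 1) (htf : ∀ g : G, g ≠ 1 → g⁻¹ ≠ g)
    (D : G → Set X) (S : Finset G) (hD : GF D S)
    (hconn : ∀ (x : X) (g : G),
      Relation.ReflTransGen (fun y z => ∃ k : G, y ∈ D k ∧ z = k • y) x (g • x))
    {w : X → α} (hw : IsLab μ w) (hwD : Adapted D w)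
    (hgen : ∀ B : Set X, MeasurableSet B → ∃ B' : Set X,
      MeasurableSet[⨆ g : G, MeasurableSpace.comap (fun x : X => w (g • x)) ⊤] B' ∧ B =ᵐ[μ] B')
    {c : X → γ} (hc : IsLab μ c) (ε : ℝ) (hε : 0 < ε) :
    ∃ l : X → ℕ, IsLab μ l ∧ Finer l w ∧ Finer l c ∧ F μ S D l ≤ F μ S D w + ε := by
  classical
  -- the sequence of labels
  let Q := {l : X → ℕ // IsLab μ l ∧ Finer l w ∧ F μ S D l ≤ F μ S D w}
  obtain ⟨p0, hp0, h01, h02⟩ := lab_encode hw
  have q0 : Q := ⟨p0, hp0, h02, (F_congr hact D S h02 h01).le⟩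
  have hnext : ∀ q : Q, ∃ q' : Q, Finer q'.1 q.1 ∧
      ∀ g x y, q'.1 x = q'.1 y → x ∈ D g → q.1 (g • x) = q.1 (g • y) := by
    rintro ⟨p, hp, hpw, hF⟩
    obtain ⟨l', h1, h2, h3, h4⟩ := step_all hact htf D S hD hwD hp hpw
    exact ⟨⟨l', h1, Finer.trans' h2 hpw, h3.trans hF⟩, h2, h4⟩
  choose nx hnx1 hnx2 using hnext
  let q : ℕ → Q := fun n => Nat.rec q0 (fun _ r => nx r) n
  let p : ℕ → X → ℕ := fun n => (q n).1
  have hp : ∀ n, IsLab μ (p n) := fun n => (q n).2.1
  have hpw : ∀ n, Finer (p n) w := fun n => (q n).2.2.1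
  have hpF : ∀ n, F μ S D (p n) ≤ F μ S D w := fun n => (q n).2.2.2
  have hmono : ∀ n, Finer (p (n + 1)) (p n) := fun n => hnx1 (q n)
  have hstep : ∀ n g x y, p (n + 1) x = p (n + 1) y → x ∈ D g → p n (g • x) = p n (g • y) :=
    fun n => hnx2 (q n)
  have hle : (⨆ g : G, MeasurableSpace.comap (fun x : X => w (g • x)) ⊤) ≤
      (⨆ n, MeasurableSpace.comap (p n) ⊤) := by
    refine iSup_le fun g => ?_
    rintro _ ⟨A, -, rfl⟩
    have heq : (fun x : X => w (g • x)) ⁻¹' A =
        ⋃ ks : List G, ⋃ _ : prd ks = g, {x | IsPath D ks x ∧ w (prd ks • x) ∈ A} := by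
      ext x
      simp only [mem_preimage, mem_iUnion, mem_setOf_eq, exists_prop]
      constructor
      · intro hx
        obtain ⟨ks, h1, h2⟩ := exists_path D (hconn x g)
        have h3 : prd ks = g := by
          have h4 : (g⁻¹ * prd ks) • x = x := by
            rw [mul_smul, ← h2, inv_smul_smul]
          have := hfree _ _ h4
          exact (inv_mul_eq_one.mp this).symm
        exact ⟨ks, h3, h1, by rw [h3]; exact hx⟩
      · rintro ⟨ks, h1, h2, h3⟩
        rw [← h1]
        exact h3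
    rw [heq]
    refine MeasurableSet.iUnion fun ks => MeasurableSet.iUnion fun _ => ?_
    refine (le_iSup (fun n => MeasurableSpace.comap (p n) ⊤) ks.length) _ ?_
    refine ⟨p ks.length '' {x | IsPath D ks x ∧ w (prd ks • x) ∈ A}, trivial, ?_⟩
    ext y
    simp only [mem_preimage, mem_image, mem_setOf_eq]
    constructor
    · rintro ⟨x, ⟨h1, h2⟩, h3⟩
      obtain ⟨h4, h5⟩ := path_det D hwD p hpw hstep ks x y h3
      exact ⟨h4.mp h1, by rw [← h5 h1]; exact h2⟩
    · intro h
      exact ⟨y, h, rfl⟩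
  have hgen' : ∀ B : Set X, MeasurableSet B → ∃ B' : Set X,
      MeasurableSet[⨆ n, MeasurableSpace.comap (p n) ⊤] B' ∧ B =ᵐ[μ] B' := by
    intro B hB
    obtain ⟨B', h1, h2⟩ := hgen B hB
    exact ⟨B', hle _ h1, h2⟩
  have hlim := ent_gen (μ := μ) p hp hmono hgen' hc
  obtain ⟨N, hN⟩ := (hlim.eventually (gt_mem_nhds hε)).exists
  have hlab := (lab_pair (hp N) hc).1
  obtain ⟨l, hl, ha, hb⟩ := lab_encode hlab
  refine ⟨l, hl, fun x y h => hpw N x y (Prod.ext_iff.mp (hb x y h)).1,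
    fun x y h => (Prod.ext_iff.mp (hb x y h)).2, ?_⟩
  rw [← F_congr hact D S ha hb]
  have := F_join hact D S hD (hp N) hc
  linarith [hpF N]

end Main

end Pool.Agent.TH902.FI
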