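import Pool.Agent.TH722.FI.Defs

/-!
# Encoding labels by natural numbers
-/

set_option autoImplicit false

open MeasureTheory Set Filter Pool.Agent.TH722.FI
open scoped Topology ENNReal

namespace Pool.Agent.TH902.FI

section Basic
variable {X : Type*} [MeasurableSpace X] {μ : Measure X} {α β : Type*}

theorem mass_congr {a : X → α} {b : X → β} (h : Finer a b) (h' : Finer b a) (x : X) :
    mass μ a x = mass μ b x := by
  unfold mass
  congr 1
  ext y
  exact ⟨fun e => h y x e, fun e => h' y x e⟩

theorem info_congr {a : X → α} {b : X → β} (h : Finer a b) (h' : Finer b a) :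
    info μ a = info μ b := by
  funext x
  unfold info
  rw [mass_congr h h']

theorem lab_encode {a : X → α} (ha : IsLab μ a) :
    ∃ b : X → ℕ, IsLab μ b ∧ Finer a b ∧ Finer b a := by
  have hc : Countable (range a) := ha.cnt.to_subtype
  obtain ⟨e, he⟩ := exists_injective_nat (range a)
  let b : X → ℕ := fun x => e ⟨a x, mem_range_self x⟩
  have h1 : Finer a b := by
    intro x y h
    have : (⟨a x, mem_range_self x⟩ : range a) = ⟨a y, mem_range_self y⟩ := Subtype.ext h
    exact congrArg e this
  have h2 : Finer b a := by
    intro x y h
    exact congrArg Subtype.val (he h)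
  refine ⟨b, ⟨fun n => ?_, (to_countable _), ?_⟩, h1, h2⟩
  · by_cases hn : ∃ x, b x = n
    · obtain ⟨x, hx⟩ := hn
      have : {y | b y = n} = {y | a y = a x} := by
        ext y
        constructor
        · intro hy
          exact h2 y x (hy.trans hx.symm)
        · intro hy
          exact (h1 y x hy).trans hx
      rw [this]
      exact ha.meas _
    · have : {y | b y = n} = ∅ := by
        ext y
        simp only [mem_setOf_eq, mem_empty_iff_false, iff_false]
        exact fun hy => hn ⟨y, hy⟩
      rw [this]
      exact MeasurableSet.empty
  · rw [← info_congr h1 h2]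
    exact ha.int

omit [MeasurableSpace X] in
theorem Finer.trans' {α β γ : Type*} {a : X → α} {b : X → β} {c : X → γ} (h : Finer a b)
    (h' : Finer b c) : Finer a c := fun x y e => h' x y (h x y e)

end Basic

end Pool.Agent.TH902.FI
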